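import Pool.Agent.Helper95.RP.St

/-!
# Project RP, module WA (the sets W, V, the classes and L)
-/

namespace Pool.Agent.Helper30.RP

open Pool.Agent.Helper95.RP Finset
open scoped Classical

theorem dg_le_card {N : ℕ} (G : SimpleGraph (Fin N)) (W : Finset (Fin N)) (v : Fin N) :
    dg G W v ≤ W.card := card_filter_le _ _

theorem dg_mono {N : ℕ} (G : SimpleGraph (Fin N)) {V W : Finset (Fin N)} (h : V ⊆ W)
    (v : Fin N) : dg G V v ≤ dg G W v := card_le_card (filter_subset_filter _ h)

theorem e2_le_sq {N : ℕ} (G : SimpleGraph (Fin N)) (W : Finset (Fin N)) :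
    e2 G W ≤ W.card * W.card := by
  unfold e2
  calc ∑ v ∈ W, dg G W v ≤ ∑ _v ∈ W, W.card := sum_le_sum fun v _ => dg_le_card G W v
    _ = W.card * W.card := by rw [sum_const, smul_eq_mul]

theorem e2_mono {N : ℕ} (G : SimpleGraph (Fin N)) {V W : Finset (Fin N)} (h : V ⊆ W) :
    e2 G V ≤ e2 G W := by
  unfold e2
  calc ∑ v ∈ V, dg G V v ≤ ∑ v ∈ V, dg G W v := sum_le_sum fun v _ => dg_mono G h v
    _ ≤ ∑ v ∈ W, dg G W v := sum_le_sum_of_subset h

theorem inc_false_le {N : ℕ} (G : SimpleGraph (Fin N)) (V : Finset (Fin N)) (cl : Cp N → Lb N)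
    (u : Fin N) : inc (Ed G V cl) (u, false) ≤ dg G V u := by
  unfold inc dg
  refine card_le_card_of_injOn Prod.snd ?_ ?_
  · intro p hp
    simp only [Ed, coe_filter, mem_filter, mem_product, Set.mem_setOf_eq, Prod.mk.injEq,
      Bool.true_eq_false, and_false, or_false, and_true] at hp ⊢
    obtain ⟨⟨⟨h1, h2⟩, h3, h4⟩, h5⟩ := hp
    rw [← h5]
    exact ⟨h2, h3⟩
  · intro p hp p' hp' he
    simp only [Ed, coe_filter, mem_filter, mem_product, Set.mem_setOf_eq, Prod.mk.injEq,
      Bool.true_eq_false, and_false, or_false, and_true] at hp hp'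
    exact Prod.ext (hp.2.trans hp'.2.symm) he

theorem inc_true_le {N : ℕ} (G : SimpleGraph (Fin N)) (V : Finset (Fin N)) (cl : Cp N → Lb N)
    (u : Fin N) : inc (Ed G V cl) (u, true) ≤ dg G V u := by
  unfold inc dg
  refine card_le_card_of_injOn Prod.fst ?_ ?_
  · intro p hp
    simp only [Ed, coe_filter, mem_filter, mem_product, Set.mem_setOf_eq, Prod.mk.injEq,
      Bool.false_eq_true, and_false, false_or, and_true] at hp ⊢
    obtain ⟨⟨⟨h1, h2⟩, h3, h4⟩, h5⟩ := hp
    rw [← h5]
    exact ⟨h1, h3.symm⟩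
  · intro p hp p' hp' he
    simp only [Ed, coe_filter, mem_filter, mem_product, Set.mem_setOf_eq, Prod.mk.injEq,
      Bool.false_eq_true, and_false, false_or, and_true] at hp hp'
    exact Prod.ext he (hp.2.trans hp'.2.symm)

theorem card_Ed_le {N : ℕ} (G : SimpleGraph (Fin N)) (V : Finset (Fin N)) (cl : Cp N → Lb N) :
    (Ed G V cl).card ≤ e2 G V := by
  unfold e2
  rw [card_eq_sum_card_fiberwise (f := Prod.fst) (t := V)]
  · refine sum_le_sum fun u hu => ?_
    unfold dg
    refine card_le_card_of_injOn Prod.snd ?_ ?_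
    · intro p hp
      simp only [Ed, coe_filter, mem_filter, mem_product, Set.mem_setOf_eq] at hp ⊢
      obtain ⟨⟨⟨h1, h2⟩, h3, h4⟩, h5⟩ := hp
      rw [← h5]
      exact ⟨h2, h3⟩
    · intro p hp p' hp' he
      simp only [Ed, coe_filter, mem_filter, mem_product, Set.mem_setOf_eq] at hp hp'
      exact Prod.ext (hp.2.trans hp'.2.symm) he
  · intro p hp
    simp only [Ed, coe_filter, mem_product, Set.mem_setOf_eq] at hp
    exact hp.1.1

theorem hWA : WA := by
  intro hTU hKR hXL hDB hDC hDE N G t q hq ht hI hN hNq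
  obtain ⟨W, hW1, hW2⟩ := hKR N G t q hI (by omega) hNq
  have hTW := hTU N G t W (fun S _ hS => hI S hS)
  have hEsq := e2_le_sq G W
  have hWN : W.card ≤ N := by simpa using card_le_univ W
  have hw : 100 * t ≤ W.card := by omega
  have hw1 : 1 ≤ W.card := by omega
  have hE99 : 99 * W.card ≤ e2 G W := by
    have h1 : t * (100 * W.card) ≤ t * (e2 G W + W.card) := by
      calc t * (100 * W.card) = (100 * t) * W.card := by ring
        _ ≤ W.card * W.card := Nat.mul_le_mul_right _ hw
        _ = W.card ^ 2 := by ring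
        _ ≤ _ := hTW
    have h2 := Nat.le_of_mul_le_mul_left h1 (by omega)
    omega
  have hEq : e2 G W ≤ 2 ^ q := by
    calc e2 G W ≤ W.card * W.card := hEsq
      _ ≤ N * N := Nat.mul_le_mul hWN hWN
      _ = N ^ 2 := by ring
      _ ≤ 2 ^ q := hNq
  obtain ⟨V, cl, hVW, hXp, hinc, hEd⟩ := hDE hXL hDB hDC N G W (8 * q) q (by omega) le_rfl
    (by omega) hEq
  have hL1 : e2 G W ≤ 8 * W.card * ((e2 G W + 8 * W.card - 1) / (8 * W.card)) := by
    have h1 := Nat.div_add_mod (e2 G W + 8 * W.card - 1) (8 * W.card)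
    have h2 := Nat.mod_lt (e2 G W + 8 * W.card - 1) (show 0 < 8 * W.card by omega)
    omega
  have hL2 : ∀ x : ℕ, e2 G W ≤ 8 * W.card * x →
      (e2 G W + 8 * W.card - 1) / (8 * W.card) ≤ x := by
    intro x hx
    have h1 : e2 G W + 8 * W.card - 1 < 8 * W.card * (x + 1) := by
      rw [Nat.mul_succ]
      omega
    exact Nat.lt_succ_iff.1 (Nat.div_lt_of_lt_mul h1)
  refine ⟨W.card, e2 G W, (e2 G W + 8 * W.card - 1) / (8 * W.card), V, cl, hW1, hWN, hE99, hEsq,
    hL1, ?_, hXp, ?_, e2_mono G hVW, ?_⟩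
  · by_contra hc
    have h1 : 8 * W.card * ((e2 G W + 8 * W.card - 1) / (8 * W.card)) ≤ 8 * W.card * 12 :=
      Nat.mul_le_mul_left _ (by omega)
    omega
  · have := card_Ed_le G V cl
    omega
  · intro u hu
    have h1 := hinc u hu
    have hor : (e2 G W + 8 * W.card - 1) / (8 * W.card) ≤ inc (Ed G V cl) (u, false) ∨
        (e2 G W + 8 * W.card - 1) / (8 * W.card) ≤ inc (Ed G V cl) (u, true) := by
      rcases le_total (inc (Ed G V cl) (u, false)) (inc (Ed G V cl) (u, true)) with h | h
      · right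
        refine hL2 _ (h1.trans ?_)
        calc 4 * (W.card * (inc (Ed G V cl) (u, false) + inc (Ed G V cl) (u, true)))
            ≤ 4 * (W.card * (inc (Ed G V cl) (u, true) + inc (Ed G V cl) (u, true))) := by
              gcongr
          _ = _ := by ring
      · left
        refine hL2 _ (h1.trans ?_)
        calc 4 * (W.card * (inc (Ed G V cl) (u, false) + inc (Ed G V cl) (u, true)))
            ≤ 4 * (W.card * (inc (Ed G V cl) (u, false) + inc (Ed G V cl) (u, false))) := by
              gcongr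
          _ = _ := by ring
    refine ⟨hor, ?_, ?_⟩
    · have h2 := inc_false_le G V cl u
      have h3 := inc_true_le G V cl u
      rcases hor with h | h <;> omega
    · have h2 := hW2 u (hVW hu)
      refine le_trans ?_ h2
      have h3 := dg_mono G hVW u
      gcongr

end Pool.Agent.Helper30.RP
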